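import Pool.Agent.H83.HC.Nor

set_option autoImplicit false

/-!
PROJECT HB (MP_bf82d2_ag): the list of the Shimura families of covers of elliptic curves.
-/

namespace Pool.Agent.H83.HC

open Finset Module
open Pool.Agent.H78.HC (RH HH Tr ShimH)
open Pool.Agent.H52.WP (ShimE)
open Pool.Agent.H83.UNE (shimE_q8 shimE_iso)

variable {G : Type} [Group G]

theorem sq_of_order {x a : G} (hx : orderOf x = 4) (ha : a ∈ Subgroup.zpowers x) (h1 : a ≠ 1) (h2 : a ^ 2 = 1) :
    a = x ^ 2 := by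
  obtain ⟨k, rfl⟩ := Subgroup.mem_zpowers_iff.1 ha
  have h3 : x ^ (k * 2) = 1 := by
    rw [zpow_mul]
    exact_mod_cast h2
  have h4 := orderOf_dvd_iff_zpow_eq_one.2 h3
  rw [hx] at h4
  have h5 : ¬ ((4 : ℕ) : ℤ) ∣ k := by
    intro h
    rw [← hx] at h
    exact h1 (orderOf_dvd_iff_zpow_eq_one.1 h)
  have h6 : ((4 : ℕ) : ℤ) ∣ k - 2 := by
    push_cast at h4 h5 ⊢
    omega
  rw [← hx] at h6
  have h7 := orderOf_dvd_iff_zpow_eq_one.1 h6
  rw [zpow_sub, mul_inv_eq_one] at h7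
  rw [h7]
  norm_cast

theorem mem_of_prime [Finite G] {x s : G} (hx : (orderOf x).Prime) (hs : s ∈ Subgroup.zpowers x) (hs1 : s ≠ 1) :
    x ∈ Subgroup.zpowers s := by
  have h1 : Subgroup.zpowers s ≤ Subgroup.zpowers x := (Subgroup.zpowers_le).2 hs
  have h2 : orderOf s ∣ orderOf x := orderOf_dvd_of_mem_zpowers hs
  have h3 : orderOf s = orderOf x := by
    rcases (Nat.dvd_prime hx).1 h2 with h | h
    · exact absurd (orderOf_eq_one_iff.1 h) hs1
    · exact h
  have h4 : Subgroup.zpowers s = Subgroup.zpowers x := by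
    apply Subgroup.eq_of_le_of_card_ge h1
    rw [Nat.card_zpowers, Nat.card_zpowers, h3]
  rw [h4]
  exact Subgroup.mem_zpowers x

theorem order_of_prime {x s : G} (hx : (orderOf x).Prime) (hs : s ∈ Subgroup.zpowers x) (hs1 : s ≠ 1) :
    orderOf s = orderOf x := by
  rcases (Nat.dvd_prime hx).1 (orderOf_dvd_of_mem_zpowers hs) with h | h
  · exact absurd (orderOf_eq_one_iff.1 h) hs1
  · exact h

/-- the relations of the quaternion group -/
theorem quat_rel {x y : G} (h1 : x ^ 2 = y ^ 2) (h2 : x ^ 2 = x * y * x⁻¹ * y⁻¹) (hc : x * y ≠ y * x) :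
    orderOf x = 4 ∧ y * x * y⁻¹ = x⁻¹ ∧ x * y * x⁻¹ = y⁻¹ ∧ x ^ 2 ≠ 1 := by
  have h3 : y * x⁻¹ * y⁻¹ = x := by
    have h4 : x * (y * x⁻¹ * y⁻¹) = x * x := by
      rw [← sq, h2]
      group
    exact mul_left_cancel h4
  have h4 : y * x * y⁻¹ = x⁻¹ := by
    have h5 := congrArg (·⁻¹) h3
    simp only [mul_inv_rev, inv_inv] at h5
    rw [← mul_assoc] at h5
    exact h5
  have hne : x ^ 2 ≠ 1 := by
    intro h
    rw [h] at h2
    apply hc
    have h5 := mul_inv_eq_one.1 h2.symm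
    exact mul_inv_eq_iff_eq_mul.1 h5
  have h5 : x ^ 4 = 1 := by
    have h6 : y * x ^ 2 * y⁻¹ = x ^ 2 := by
      rw [h1]
      group
    have h7 : y * x ^ 2 * y⁻¹ = (y * x * y⁻¹) ^ 2 := by
      rw [sq, sq]
      group
    rw [h6, h4] at h7
    calc x ^ 4 = x ^ 2 * x ^ 2 := by rw [← pow_add]
      _ = x⁻¹ ^ 2 * x ^ 2 := by rw [← h7]
      _ = 1 := by group
  refine ⟨?_, h4, ?_, hne⟩
  · exact orderOf_eq_prime_pow (p := 2) (n := 1) (by simpa using hne) (by simpa using h5)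
  · have h6 : x * y * x⁻¹ = x ^ 2 * y := by
      rw [h2]
      group
    have h7 : y ^ 4 = 1 := by
      calc y ^ 4 = y ^ 2 * y ^ 2 := by rw [← pow_add]
        _ = x ^ 4 := by rw [← h1, ← pow_add]
        _ = 1 := h5
    rw [h6, h1, ← pow_succ]
    have h8 : y ^ 3 * y = 1 := by
      rw [← pow_succ]
      exact h7
    exact eq_inv_of_mul_eq_one_left h8

theorem zcomm {x s : G} (hs : s ∈ Subgroup.zpowers x) : s * x = x * s := by
  obtain ⟨k, rfl⟩ := Subgroup.mem_zpowers_iff.1 hs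
  exact (Commute.zpow_self x k).eq

/-- the entries of a system with non-commuting `x`, `y` -/
theorem entry {x y s : G} (h1 : x ^ 2 = y ^ 2) (h2 : x ^ 2 = x * y * x⁻¹ * y⁻¹) (hc : x * y ≠ y * x)
    (hs : s ∈ Subgroup.zpowers x) (hs' : s ∈ Subgroup.zpowers (x * y * x⁻¹)) (hs1 : s ≠ 1) : s = x ^ 2 := by
  obtain ⟨h4, h5, h6, _⟩ := quat_rel h1 h2 hc
  have h7 : s ∈ Subgroup.zpowers y := by
    rw [h6, Subgroup.zpowers_inv] at hs'
    exact hs'
  have h8 : y * s * y⁻¹ = s := by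
    rw [← zcomm h7]
    group
  have h9 : y * s * y⁻¹ = s⁻¹ := by
    obtain ⟨k, rfl⟩ := Subgroup.mem_zpowers_iff.1 hs
    rw [← conj_zpow, h5, inv_zpow]
  refine sq_of_order h4 hs hs1 ?_
  rw [sq]
  nth_rewrite 1 [← h8]
  rw [h9, inv_mul_cancel]

variable [Fintype G] {x₀ y₀ : G} {l₀ : List G}

theorem pair_q8 (h : ShimH x₀ y₀ l₀) {x y : G} {l : List G} (ht : Tr x₀ y₀ l₀ x y l) (hc : x * y ≠ y * x) :
    x ^ 2 = y ^ 2 ∧ x ^ 2 = x * y * x⁻¹ * y⁻¹ := by
  classical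
  have hxK : x ∈ Subgroup.closure {x, y} := Subgroup.subset_closure (by simp)
  have hyK : y ∈ Subgroup.closure {x, y} := Subgroup.subset_closure (by simp)
  have : Fintype (Subgroup.closure {x, y}) := Fintype.ofFinite _
  have h1 : ShimE (⟨x, hxK⟩ : Subgroup.closure {x, y}) ⟨y, hyK⟩ := by
    refine h.hand x y l ht hc (Subgroup.closure {x, y}) (Subgroup.subtype _) (Subgroup.subtype_injective _)
      ⟨x, hxK⟩ ⟨y, hyK⟩ rfl rfl ?_
    have h2 := Subgroup.closure_closure_coe_preimage (k := ({x, y} : Set G))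
    rw [← h2]
    congr 1
    ext ⟨g, hg⟩
    simp [Subtype.ext_iff]
  obtain ⟨_, h2, h3⟩ := shimE_q8 h1
  exact ⟨congrArg Subtype.val h2, congrArg Subtype.val h3⟩

/-- a translate with non-commuting `x`, `y`: there is only one branch point -/
theorem noncomm (h : ShimH x₀ y₀ l₀)
    (hp : ∀ x y l, Tr x₀ y₀ l₀ x y l → x ≠ 1 → ∀ s ∈ l, s ∈ Subgroup.zpowers x)
    (h0 : x₀ * y₀ * x₀⁻¹ * y₀⁻¹ * l₀.prod = 1) (hne : ∀ s ∈ l₀, s ≠ 1)
    {x y : G} {l : List G} (ht : Tr x₀ y₀ l₀ x y l) (hc : x * y ≠ y * x) : l₀.length = 1 := by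
  obtain ⟨h1, h2⟩ := pair_q8 h ht hc
  obtain ⟨h4, h5, h6, h7⟩ := quat_rel h1 h2 hc
  have hx : x ≠ 1 := by
    intro hx
    rw [hx] at hc
    simp at hc
  have hy : x * y * x⁻¹ ≠ 1 := by
    intro hy
    rw [h6, inv_eq_one] at hy
    rw [hy] at hc
    simp at hc
  have hall : ∀ s ∈ l, s = x ^ 2 := fun s hs => entry h1 h2 hc (hp x y l ht hx s hs)
    (hp _ _ _ (Tr.rot ht) hy s hs) (ht.ne hne s hs)
  have hl : l = List.replicate l.length (x ^ 2) := List.eq_replicate_iff.2 ⟨rfl, hall⟩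
  have hrel := ht.rel h0
  rw [← h2, hl, List.prod_replicate] at hrel
  have hx4 : x ^ 4 = 1 := by
    rw [← h4]
    exact pow_orderOf_eq_one x
  have hlen := (h.moon x y l ht hx).1
  rw [← ht.len]
  obtain ⟨n, hn⟩ : ∃ n, n = l.length := ⟨_, rfl⟩
  rw [← hn] at hlen hrel hl ⊢
  have h9 : x ^ 2 * (x ^ 2) ^ n = x ^ (2 + 2 * n) := by rw [← pow_mul, ← pow_add]
  rw [h9] at hrel
  have h10 := orderOf_dvd_iff_pow_eq_one.2 hrel
  rw [h4] at h10
  have h11 : n = 1 ∨ n = 3 := by omega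
  rcases h11 with h11 | h11
  · exact h11
  · exfalso
    rw [h11] at hl
    have h12 : l = [x ^ 2, x ^ 2, x ^ 2] := by
      rw [hl]
      rfl
    rw [h12] at ht
    exact h.quat x y (x ^ 2) ht ⟨rfl, h1.symm, h2.symm⟩

/-- one branch point -/
theorem one_point (h : ShimH x₀ y₀ l₀) (h0 : x₀ * y₀ * x₀⁻¹ * y₀⁻¹ * l₀.prod = 1) (hne : ∀ s ∈ l₀, s ≠ 1)
    (hg : ∀ K : Subgroup G, x₀ ∈ K → y₀ ∈ K → (∀ s ∈ l₀, s ∈ K) → K = ⊤) (hl : l₀.length = 1) :
    Nonempty (G ≃* QuaternionGroup 2) ∧ ∃ z, orderOf z = 2 ∧ l₀ = [z] := by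
  obtain ⟨s, rfl⟩ := List.length_eq_one_iff.1 hl
  rw [List.prod_singleton] at h0
  have hs1 : s ≠ 1 := hne s (by simp)
  have hs : s = (x₀ * y₀ * x₀⁻¹ * y₀⁻¹)⁻¹ := eq_inv_of_mul_eq_one_right h0
  have hc : x₀ * y₀ ≠ y₀ * x₀ := by
    intro hc
    apply hs1
    rw [hs, hc]
    group
  have hcl : Subgroup.closure {x₀, y₀} = (⊤ : Subgroup G) := by
    have h1 : x₀ ∈ Subgroup.closure {x₀, y₀} := Subgroup.subset_closure (by simp)
    have h2 : y₀ ∈ Subgroup.closure {x₀, y₀} := Subgroup.subset_closure (by simp)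
    refine hg _ h1 h2 ?_
    intro t ht
    rw [List.mem_singleton.1 ht, hs]
    exact inv_mem (mul_mem (mul_mem (mul_mem h1 h2) (inv_mem h1)) (inv_mem h2))
  have h1 : ShimE x₀ y₀ :=
    h.hand x₀ y₀ [s] Tr.refl hc G (MonoidHom.id G) (fun _ _ h => h) x₀ y₀ rfl rfl hcl
  refine ⟨shimE_iso h1, s, ?_, rfl⟩
  obtain ⟨_, h2, h3⟩ := shimE_q8 h1
  obtain ⟨h4, _, _, h7⟩ := quat_rel h2 h3 hc
  rw [hs, orderOf_inv, ← h3]
  refine orderOf_eq_prime ?_ h7
  rw [← pow_mul]
  have h8 := pow_orderOf_eq_one x₀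
  rw [h4] at h8
  exact h8

omit [Fintype G] in
/-- the group generated by one element -/
theorem cyc (hg : ∀ K : Subgroup G, x₀ ∈ K → y₀ ∈ K → (∀ s ∈ l₀, s ∈ K) → K = ⊤) {c : G}
    (hx : x₀ ∈ Subgroup.zpowers c) (hy : y₀ ∈ Subgroup.zpowers c) (hs : ∀ s ∈ l₀, s ∈ Subgroup.zpowers c) :
    Nat.card G = orderOf c ∧ IsCyclic G := by
  have h1 := hg (Subgroup.zpowers c) hx hy hs
  refine ⟨?_, isCyclic_iff_exists_zpowers_eq_top.2 ⟨c, h1⟩⟩
  rw [← Nat.card_zpowers, h1, Subgroup.card_top]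

omit [Fintype G] in
/-- two branch points, the group theory -/
theorem two_aux [Finite G] {x y a : G} (hc : x * y = y * x) (ha : a ≠ 1)
    (hm : ∀ z, (z = x ∨ z = y ∨ z = x * y) → z ≠ 1 → a ∈ Subgroup.zpowers z ∧
      ((orderOf z = 2 ∧ orderOf a = 2) ∨ (orderOf z = 3 ∧ orderOf a = 3) ∨ (orderOf z = 4 ∧ orderOf a = 2)))
    (h11 : x = 1 → y = 1 → orderOf a = 2 ∨ orderOf a = 3) :
    ((orderOf a = 2 ∨ orderOf a = 3) ∧ x ∈ Subgroup.zpowers a ∧ y ∈ Subgroup.zpowers a) ∨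
      (orderOf a = 2 ∧ ∃ c, orderOf c = 4 ∧ a ∈ Subgroup.zpowers c ∧ x ∈ Subgroup.zpowers c ∧
        y ∈ Subgroup.zpowers c) := by
  have h23 : orderOf a = 2 ∨ orderOf a = 3 := by
    by_cases hx : x = 1
    · by_cases hy : y = 1
      · exact h11 hx hy
      · rcases (hm y (by simp) hy).2 with h | h | h
        · exact Or.inl h.2
        · exact Or.inr h.2
        · exact Or.inl h.2
    · rcases (hm x (by simp) hx).2 with h | h | h
      · exact Or.inl h.2
      · exact Or.inr h.2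
      · exact Or.inl h.2
  have key : ∀ z, (z = x ∨ z = y ∨ z = x * y) → z ∈ Subgroup.zpowers a ∨ (orderOf z = 4 ∧ orderOf a = 2 ∧
      a ∈ Subgroup.zpowers z) := by
    intro z hz
    by_cases h1 : z = 1
    · left
      rw [h1]
      exact one_mem _
    · obtain ⟨h2, h3⟩ := hm z hz h1
      rcases h3 with h | h | h
      · left
        exact mem_of_prime (by rw [h.1]; exact Nat.prime_two) h2 ha
      · left
        exact mem_of_prime (by rw [h.1]; exact Nat.prime_three) h2 ha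
      · right
        exact ⟨h.1, h.2, h2⟩
  rcases key x (by simp) with hx | ⟨hx4, ha2, hax⟩
  · rcases key y (by simp) with hy | ⟨hy4, ha2, hay⟩
    · exact Or.inl ⟨h23, hx, hy⟩
    · refine Or.inr ⟨ha2, y, hy4, hay, ?_, Subgroup.mem_zpowers y⟩
      exact (Subgroup.zpowers_le.2 hay) hx
  · refine Or.inr ⟨ha2, x, hx4, hax, Subgroup.mem_zpowers x, ?_⟩
    rcases key y (by simp) with hy | ⟨hy4, _, hay⟩
    · exact (Subgroup.zpowers_le.2 hax) hy
    · have hasq : a ^ 2 = 1 := by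
        rw [← ha2]
        exact pow_orderOf_eq_one a
      have h1 := sq_of_order hx4 hax ha hasq
      have h2 := sq_of_order hy4 hay ha hasq
      have h3 : (x * y) ^ 2 = 1 := by
        have h4 : (x * y) ^ 2 = x ^ 2 * y ^ 2 := (Commute.mul_pow hc 2)
        rw [h4, ← h1, ← h2, ← sq, hasq]
      have h4 : x * y ∈ Subgroup.zpowers x := by
        rcases key (x * y) (by simp) with h | ⟨h, _, _⟩
        · exact (Subgroup.zpowers_le.2 hax) h
        · exfalso
          have h5 := orderOf_dvd_of_pow_eq_one h3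
          rw [h] at h5
          norm_num at h5
      have h5 := mul_mem (inv_mem (Subgroup.mem_zpowers x)) h4
      rwa [inv_mul_cancel_left] at h5

/-- THE LIST -/
theorem list_HB (h : ShimH x₀ y₀ l₀)
    (hp : ∀ x y l, Tr x₀ y₀ l₀ x y l → x ≠ 1 → ∀ s ∈ l, s ∈ Subgroup.zpowers x)
    (h0 : x₀ * y₀ * x₀⁻¹ * y₀⁻¹ * l₀.prod = 1) (hne : ∀ s ∈ l₀, s ≠ 1) (hnil : l₀ ≠ [])
    (hg : ∀ K : Subgroup G, x₀ ∈ K → y₀ ∈ K → (∀ s ∈ l₀, s ∈ K) → K = ⊤) :
    (Nonempty (G ≃* QuaternionGroup 2) ∧ ∃ z, orderOf z = 2 ∧ l₀ = [z]) ∨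
    (Nat.card G = 2 ∧ ∃ s, s ≠ 1 ∧ (l₀ = [s, s] ∨ l₀ = [s, s, s, s])) ∨
    (Nat.card G = 3 ∧ ∃ s, s ≠ 1 ∧ (l₀ = [s, s⁻¹] ∨ l₀ = [s, s, s])) ∨
    (Nat.card G = 4 ∧ IsCyclic G ∧ ∃ s, orderOf s = 2 ∧ l₀ = [s, s]) := by
  by_cases h1 : l₀.length = 1
  · exact Or.inl (one_point h h0 hne hg h1)
  have hcomm : ∀ x y l, Tr x₀ y₀ l₀ x y l → x * y = y * x := by
    intro x y l ht
    by_contra hc
    exact h1 (noncomm h hp h0 hne ht hc)
  have hc0 := hcomm _ _ _ Tr.refl
  have hprod : l₀.prod = 1 := by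
    rw [hc0, mul_inv_cancel_right, mul_inv_cancel, one_mul] at h0
    exact h0
  have hY : Tr x₀ y₀ l₀ y₀ x₀⁻¹ l₀ := by
    have h2 := Tr.rot (Tr.refl (x₀ := x₀) (y₀ := y₀) (l₀ := l₀))
    rwa [hc0, mul_inv_cancel_right] at h2
  have hXY : Tr x₀ y₀ l₀ (x₀ * y₀) y₀ l₀ := Tr.twist Tr.refl
  have hlen : l₀.length ≤ 4 := by
    by_cases hx : x₀ = 1
    · by_cases hy : y₀ = 1
      · obtain ⟨m, s, hms⟩ : ∃ m s, l₀ = m ++ [s] := by
          rcases List.eq_nil_or_concat l₀ with h2 | ⟨m, s, h2⟩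
          · exact absurd h2 hnil
          · exact ⟨m, s, by simpa using h2⟩
        have h2 : Tr x₀ y₀ l₀ (s * x₀) y₀ ((y₀ * s * y₀⁻¹) :: m) := by
          apply Tr.push
          rw [← hms]
          exact Tr.refl
        have h3 := (h.moon _ _ _ h2 (by rw [hx, mul_one]; exact hne s (by rw [hms]; simp))).1
        rw [hms]
        simpa using h3
      · exact (h.moon _ _ _ hY hy).1
    · exact (h.moon _ _ _ Tr.refl hx).1
  have hcomY : y₀ * x₀⁻¹ = x₀⁻¹ * y₀ := hcomm _ _ _ hY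
  have hcomXY : x₀ * y₀ * y₀ = y₀ * (x₀ * y₀) := hcomm _ _ _ hXY
  match l₀, hnil, h1, hlen with
  | [], hnil, _, _ => exact absurd rfl hnil
  | [_], _, h1, _ => exact absurd rfl h1
  | [a, b], _, _, _ =>
    have ha : a ≠ 1 := hne a (by simp)
    have hb : b = a⁻¹ := by
      rw [List.prod_cons, List.prod_singleton] at hprod
      exact eq_inv_of_mul_eq_one_right hprod
    have hm : ∀ z, (z = x₀ ∨ z = y₀ ∨ z = x₀ * y₀) → z ≠ 1 → a ∈ Subgroup.zpowers z ∧
        ((orderOf z = 2 ∧ orderOf a = 2) ∨ (orderOf z = 3 ∧ orderOf a = 3) ∨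
          (orderOf z = 4 ∧ orderOf a = 2)) := by
      rintro z (rfl | rfl | rfl) hz
      · exact ⟨hp _ _ _ Tr.refl hz a (by simp), ((h.moon _ _ _ Tr.refl hz).2 hc0).2.2 rfl a (by simp)⟩
      · exact ⟨hp _ _ _ hY hz a (by simp), ((h.moon _ _ _ hY hz).2 hcomY).2.2 rfl a (by simp)⟩
      · exact ⟨hp _ _ _ hXY hz a (by simp), ((h.moon _ _ _ hXY hz).2 hcomXY).2.2 rfl a (by simp)⟩
    have h11 : x₀ = 1 → y₀ = 1 → orderOf a = 2 ∨ orderOf a = 3 := by
      intro hx hy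
      have h2 : Tr x₀ y₀ [a, b] (b * x₀) y₀ ((y₀ * b * y₀⁻¹) :: [a]) := Tr.push (l := [a]) Tr.refl
      have h3 : b * x₀ ≠ 1 := by
        rw [hx, mul_one]
        exact hne b (by simp)
      rcases ((h.moon _ _ _ h2 h3).2 (hcomm _ _ _ h2)).2.2 rfl a (by simp) with h4 | h4 | h4
      · exact Or.inl h4.2
      · exact Or.inr h4.2
      · exact Or.inl h4.2
    have hinv : orderOf a = 2 → a⁻¹ = a := by
      intro h2
      have h3 := pow_orderOf_eq_one a
      rw [h2, sq] at h3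
      exact inv_eq_of_mul_eq_one_left h3
    rcases two_aux hc0 ha hm h11 with ⟨h2, hx, hy⟩ | ⟨h2, c, hc4, hac, hx, hy⟩
    · have h3 := cyc hg hx hy (by
        intro s hs
        simp only [List.mem_cons, List.not_mem_nil, or_false] at hs
        rcases hs with rfl | rfl
        · exact Subgroup.mem_zpowers _
        · rw [hb]
          exact inv_mem (Subgroup.mem_zpowers _))
      rcases h2 with h2 | h2
      · right; left
        refine ⟨h3.1.trans h2, a, ha, Or.inl ?_⟩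
        rw [hb, hinv h2]
      · right; right; left
        refine ⟨h3.1.trans h2, a, ha, Or.inl ?_⟩
        rw [hb]
    · have h3 := cyc hg hx hy (by
        intro s hs
        simp only [List.mem_cons, List.not_mem_nil, or_false] at hs
        rcases hs with rfl | rfl
        · exact hac
        · rw [hb]
          exact inv_mem hac)
      right; right; right
      refine ⟨h3.1.trans hc4, h3.2, a, h2, ?_⟩
      rw [hb, hinv h2]
  | [a, b, c], _, _, _ =>
    have ha : a ≠ 1 := hne a (by simp)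
    have hf : ∀ x y, Tr x₀ y₀ [a, b, c] x y [a, b, c] → x ≠ 1 → b = a ∧ c = a ∧ orderOf a = 3 ∧
        x ∈ Subgroup.zpowers a := by
      intro x y ht hx
      obtain ⟨h2, h3⟩ := ((h.moon _ _ _ ht hx).2 (hcomm _ _ _ ht)).2.1 rfl
      have h4 := hp _ _ _ ht hx a (by simp)
      have h5 : (orderOf x).Prime := by
        rw [h2]
        exact Nat.prime_three
      exact ⟨h3 b (by simp) a (by simp), h3 c (by simp) a (by simp), (order_of_prime h5 h4 ha).trans h2,
        mem_of_prime h5 h4 ha⟩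
    have key : b = a ∧ c = a ∧ orderOf a = 3 ∧ x₀ ∈ Subgroup.zpowers a ∧ y₀ ∈ Subgroup.zpowers a := by
      by_cases hx : x₀ = 1
      · by_cases hy : y₀ = 1
        · have h2 : Tr x₀ y₀ [a, b, c] (c * x₀) y₀ ((y₀ * c * y₀⁻¹) :: [a, b]) :=
            Tr.push (l := [a, b]) Tr.refl
          have h3 : c * x₀ ≠ 1 := by
            rw [hx, mul_one]
            exact hne c (by simp)
          obtain ⟨h4, h5⟩ := ((h.moon _ _ _ h2 h3).2 (hcomm _ _ _ h2)).2.1 rfl
          have h6 := h5 (y₀ * c * y₀⁻¹) (by simp) a (by simp)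
          rw [hy, one_mul, inv_one, mul_one] at h6
          rw [hx, mul_one, h6] at h4
          refine ⟨h5 b (by simp) a (by simp), h6, h4, ?_, ?_⟩
          · rw [hx]
            exact one_mem _
          · rw [hy]
            exact one_mem _
        · obtain ⟨h2, h3, h4, h5⟩ := hf _ _ hY hy
          refine ⟨h2, h3, h4, ?_, h5⟩
          rw [hx]
          exact one_mem _
      · obtain ⟨h2, h3, h4, h5⟩ := hf _ _ Tr.refl hx
        refine ⟨h2, h3, h4, h5, ?_⟩
        by_cases hy : y₀ = 1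
        · rw [hy]
          exact one_mem _
        · exact (hf _ _ hY hy).2.2.2
    obtain ⟨rfl, rfl, h4, h5, h6⟩ := key
    have h3 := cyc hg h5 h6 (by
      intro s hs
      simp only [List.mem_cons, List.not_mem_nil, or_false, or_self] at hs
      rw [hs]
      exact Subgroup.mem_zpowers _)
    right; right; left
    exact ⟨h3.1.trans h4, _, ha, Or.inr rfl⟩
  | [a, b, c, d], _, _, _ =>
    have ha : a ≠ 1 := hne a (by simp)
    have hf : ∀ x y, Tr x₀ y₀ [a, b, c, d] x y [a, b, c, d] → x ≠ 1 → b = a ∧ c = a ∧ d = a ∧ a = a⁻¹ ∧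
        x = a := by
      intro x y ht hx
      have h2 := ((h.moon _ _ _ ht hx).2 (hcomm _ _ _ ht)).1 rfl
      have h3 := h2 a (by simp)
      have h4 := h3.1
      have h5 := h3.2
      rw [← h4] at h5
      exact ⟨(h2 b (by simp)).1.trans h4.symm, (h2 c (by simp)).1.trans h4.symm,
        (h2 d (by simp)).1.trans h4.symm, h5, h4.symm⟩
    have key : b = a ∧ c = a ∧ d = a ∧ a = a⁻¹ ∧ x₀ ∈ Subgroup.zpowers a ∧ y₀ ∈ Subgroup.zpowers a := by
      by_cases hx : x₀ = 1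
      · by_cases hy : y₀ = 1
        · have h2 : Tr x₀ y₀ [a, b, c, d] (d * x₀) y₀ ((y₀ * d * y₀⁻¹) :: [a, b, c]) :=
            Tr.push (l := [a, b, c]) Tr.refl
          have h3 : d * x₀ ≠ 1 := by
            rw [hx, mul_one]
            exact hne d (by simp)
          have h4 := ((h.moon _ _ _ h2 h3).2 (hcomm _ _ _ h2)).1 rfl
          rw [hx, mul_one] at h4
          have h5 := h4 a (by simp)
          have h6 := h5.1
          have h7 := h5.2
          rw [← h6] at h7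
          refine ⟨(h4 b (by simp)).1.trans h6.symm, (h4 c (by simp)).1.trans h6.symm, h6.symm, h7, ?_, ?_⟩
          · rw [hx]
            exact one_mem _
          · rw [hy]
            exact one_mem _
        · obtain ⟨h2, h3, h4, h5, h6⟩ := hf _ _ hY hy
          refine ⟨h2, h3, h4, h5, ?_, ?_⟩
          · rw [hx]
            exact one_mem _
          · rw [h6]
            exact Subgroup.mem_zpowers _
      · obtain ⟨h2, h3, h4, h5, h6⟩ := hf _ _ Tr.refl hx
        refine ⟨h2, h3, h4, h5, ?_, ?_⟩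
        · rw [h6]
          exact Subgroup.mem_zpowers _
        · by_cases hy : y₀ = 1
          · rw [hy]
            exact one_mem _
          · rw [(hf _ _ hY hy).2.2.2.2]
            exact Subgroup.mem_zpowers _
    obtain ⟨rfl, rfl, rfl, h4, h5, h6⟩ := key
    have h3 := cyc hg h5 h6 (by
      intro s hs
      simp only [List.mem_cons, List.not_mem_nil, or_false, or_self] at hs
      rw [hs]
      exact Subgroup.mem_zpowers _)
    right; left
    refine ⟨h3.1.trans (orderOf_eq_prime ?_ ha), _, ha, Or.inr rfl⟩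
    rw [sq]
    nth_rewrite 1 [h4]
    exact inv_mul_cancel _
  | _ :: _ :: _ :: _ :: _ :: _, _, _, hlen =>
    exfalso
    simp only [List.length_cons] at hlen
    omega

end Pool.Agent.H83.HC
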