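import Pool.Agent.H52.HC.Cst
import Pool.Agent.H83.HC.Cas

set_option autoImplicit false

/-!
PROJECT HB (MP_bf82d2_ag): the list of the Shimura families of covers of elliptic curves, from `ShimH`.
-/

namespace Pool.Agent.H83.HC

open Pool.Agent.H78.HC (RH HH Tr ShimH)

variable {G : Type} [Group G] [Fintype G] {x₀ y₀ : G} {l₀ : List G}

/-- all entries of all translates are powers of `x`, if `x` is not `1` -/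
theorem pow_HB (h : ShimH x₀ y₀ l₀)
    (hg : ∀ K : Subgroup G, x₀ ∈ K → y₀ ∈ K → (∀ s ∈ l₀, s ∈ K) → K = ⊤) :
    ∀ x y l, Tr x₀ y₀ l₀ x y l → x ≠ 1 → ∀ s ∈ l, s ∈ Subgroup.zpowers x :=
  fun x y l ht hx => (pow_of_const x y l (Pool.Agent.H52.HC.RH_const hg h ht hx)).2

/-- THE LIST OF SIX -/
theorem six (h : ShimH x₀ y₀ l₀)
    (h0 : x₀ * y₀ * x₀⁻¹ * y₀⁻¹ * l₀.prod = 1) (hne : ∀ s ∈ l₀, s ≠ 1) (hnil : l₀ ≠ [])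
    (hg : ∀ K : Subgroup G, x₀ ∈ K → y₀ ∈ K → (∀ s ∈ l₀, s ∈ K) → K = ⊤) :
    (Nonempty (G ≃* QuaternionGroup 2) ∧ ∃ z, orderOf z = 2 ∧ l₀ = [z]) ∨
    (Nat.card G = 2 ∧ ∃ s, s ≠ 1 ∧ (l₀ = [s, s] ∨ l₀ = [s, s, s, s])) ∨
    (Nat.card G = 3 ∧ ∃ s, s ≠ 1 ∧ (l₀ = [s, s⁻¹] ∨ l₀ = [s, s, s])) ∨
    (Nat.card G = 4 ∧ IsCyclic G ∧ ∃ s, orderOf s = 2 ∧ l₀ = [s, s]) :=
  list_HB h (pow_HB h hg) h0 hne hnil hg

end Pool.Agent.H83.HC
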